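import Pool.Agent.LE.StmtsQX
import Pool.Agent.Helper44_LQF.USM

/-!
# Squad LQX, row USM: smoothness of the functional
-/

set_option autoImplicit false

open MeasureTheory ProbabilityTheory Function Filter

open scoped ENNReal BigOperators Topology NNReal ComplexOrder Matrix

noncomputable section

namespace Pool.Agent.LE.QX.H76

open Pool.Agent.Anderson hiding box mem_box card_box
open Pool.Agent.Loc Pool.Agent.Mob Pool.Agent.Helper54.Bal
  Pool.Agent.Helper96.EXP Pool.Agent.BED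
open Pool.Agent.LE.MN Pool.Agent.LE.CL Pool.Agent.LE.IR Pool.Agent.LE.QD Pool.Agent.LE.QF
open Pool.Agent.LE.QF.H44 (CM nsqC ofRealC tr_ge qf_Dl)

theorem usm (jma : JmaStmt) (wab : WabStmt) (nnu : NnuStmt) (rsj : RsjStmt) : UsmStmt := by
  intro d M _ D c₁ C₁ c₀ q hc₁ hc₀ hA hq0 hqT
  have hη := hA.hT.2.1
  have hm : 0 < D.m.im := lt_of_lt_of_le hc₁ hA.hm.1
  have hkp : 0 < D.kp q.1 := by
    have h1 : 0 ≤ (D.T - q.1) * D.m.im := mul_nonneg (by linarith) hm.le
    unfold Dat.kp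
    linarith
  obtain ⟨hJ, _, _, hkt, _, hLs, _⟩ := rsj d M D c₁ C₁ c₀ q hc₁ hA hkp
  have hta : 0 < D.ta q.1 := div_pos hkp hm
  have hε : 0 < D.ε₁ := lt_of_lt_of_le hA.hδ.1 hA.hδ.2.1
  have hε2 : D.ε₁ ≤ 1 / 2 := le_trans hA.hδ.2.2 hc₀
  -- smoothness of the entries
  have cG : CM D.G q := fun a b => (hJ.hG a b).sm
  have cta : ContDiffAt ℝ 2 (fun r : ℝ × (Tor d M → ℝ) => D.ta r.1) q :=
    hJ.ht.1.comp q contDiffAt_fst
  have cLs : ContDiffAt ℝ 2 (fun r : ℝ × (Tor d M → ℝ) => D.Ls r.1) q :=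
    hLs.comp q contDiffAt_fst
  have ctaC := ofRealC cta
  have cBB : CM (fun r => BB (D.G r)) q := fun a b => (cG a b).pow 2
  have cKK : CM (fun r => KK (D.G r)) q := fun a b => nsqC (cG a b)
  have cY : CM D.Y q := CM.smul ctaC cBB
  have cmu : ∀ a, ContDiffAt ℝ 2 (fun r => D.mu r a) q := fun a =>
    (cG a a).sub contDiffAt_const
  have cU3 : ContDiffAt ℝ 2 D.U3 q := by
    have h1 := (((cY.mul cY.star).pow D.j)).trace
    have h2 := (Complex.reCLM.contDiff.contDiffAt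
      (x := (fun r => Matrix.trace ((D.Y r * (D.Y r)ᴴ) ^ D.j)) q)).comp q h1
    exact h2.div_const _
  by_cases hu : IsUnit (1 - D.Y q).det
  · right
    have cTh : CM D.Th q := CM.inv jma ((CM.const _ q).sub cY) hu
    have cph : ∀ a, ContDiffAt ℝ 2 (fun r => D.ph r a) q := fun a => cTh.mulVec cmu a
    have cU1 : ContDiffAt ℝ 2 D.U1 q :=
      ContDiffAt.sum fun a _ => ((nsqC (cph a)).div_const _).pow _
    have cXh : CM D.Xh q :=
      (cG.add (CM.smul ctaC ((cG.mul (CM.diag cph)).mul cG))).sub (CM.const _ q)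
    have cU2 : ContDiffAt ℝ 2 D.U2 q :=
      ContDiffAt.sum fun a _ => ContDiffAt.sum fun b _ => ((nsqC (cXh a b)).div_const _).pow _
    have cLa : ∀ a, ContDiffAt ℝ 2 (fun r => D.La r a) q := fun a =>
      ContDiffAt.sum fun b _ => (cKK a b).pow 2
    have hLs0 : D.Ls q.1 ≠ 0 := by
      have h1 : 0 < D.L₀ := by linarith [hA.hj.2.2.1]
      have h2 : 0 < D.N := by linarith [hA.hj.2.2.2.1]
      have h3 := hA.hj.2.2.2.2
      have h4 := hA.hδ.1
      unfold Dat.Ls
      positivity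
    have cU4 : ContDiffAt ℝ 2 D.U4 q :=
      ContDiffAt.sum fun a _ => ((cLa a).div cLs hLs0).pow _
    have hKs : ∀ a b, KK (D.G q) a b = KK (D.G q) b a := fun a b => by
      unfold KK
      rw [hJ.hs a b]
    have hK0 : ∀ a b, 0 ≤ KK (D.G q) a b := fun a b => by
      unfold KK
      positivity
    have hXs : ∀ a b, D.X q a b = D.X q b a := by
      intro a b
      show D.ta q.1 * Dl (KK (D.G q)) a b = D.ta q.1 * Dl (KK (D.G q)) b a
      congr 1
      unfold Dl
      rw [Matrix.sub_apply, Matrix.sub_apply, hKs a b]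
      congr 1
      by_cases h : a = b
      · subst h; rfl
      · rw [Matrix.diagonal_apply_ne _ h, Matrix.diagonal_apply_ne _ (Ne.symm h)]
    have hX0 : ∀ f, 0 ≤ qf (D.X q) f := by
      intro f
      have h1 : qf (D.X q) f = D.ta q.1 * qf (Dl (KK (D.G q))) f := by
        unfold QF.qf Dat.X
        rw [Finset.mul_sum]
        apply Finset.sum_congr rfl
        intro a _
        rw [Matrix.smul_mulVec, Pi.smul_apply, smul_eq_mul]
        ring
      rw [h1]
      exact mul_nonneg hta.le (qf_Dl _ hKs hK0 f)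
    obtain ⟨hu1, hu2, _⟩ := wab (Tor d M) (D.X q) D.S D.e₀ D.e₁ (D.ta q.1) D.ϖ D.p hXs hX0
      hA.hS.1 hA.hS.2.1 (by linarith [hA.he.1, hA.he.2.1]) (by linarith [hA.he.1]) hta.le
      hA.hϖ.1 (by linarith [hA.hj.2.1])
    have cX : CM D.X q := CM.smul cta
      (CM.sub (CM.diag fun a => ContDiffAt.sum fun b _ => cKK a b) cKK)
    have cW : CM D.W q := CM.inv jma ((cX.add (CM.const _ q)).add (CM.const _ q)) hu2
    have cA : CM (fun r : ℝ × (Tor d M → ℝ) => (D.A r.1)⁻¹) q :=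
      CM.inv jma ((CM.const _ q).add (CM.smul cta (CM.const _ q))) hu1
    have cU5 : ContDiffAt ℝ 2 D.U5 q := ((cA.mul cW).pow _).trace
    exact (((cU1.add cU2).add cU3).add cU4).add cU5
  · left
    have hdet : (1 - D.Y q).det = 0 := by
      by_contra h
      exact hu (isUnit_iff_ne_zero.mpr h)
    have htr := tr_ge (D.Y q) hdet D.j
    have hU3 : 1 < D.U3 q := by
      have h1 : D.ε₁ ^ (2 * D.j) < 1 := pow_lt_one₀ hε.le (by linarith)
        (by have := hA.hj.1; omega)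
      have h2 : 0 < D.ε₁ ^ (2 * D.j) := by positivity
      unfold Dat.U3
      rw [lt_div_iff₀ h2]
      linarith
    have h1 : ∀ᶠ r in 𝓝 q, 1 < D.U3 r := cU3.continuousAt.eventually_const_lt hU3
    have h2 : ∀ᶠ r : ℝ × (Tor d M → ℝ) in 𝓝 q, 0 < D.kp r.1 := by
      have hc : Continuous fun r : ℝ × (Tor d M → ℝ) => D.kp r.1 := by
        unfold Dat.kp
        fun_prop
      exact hc.continuousAt.eventually_const_lt hkp
    filter_upwards [h1, h2] with r hr1 hr2
    obtain ⟨n1, n2, n3, n4, n5⟩ := nnu d M D c₁ C₁ c₀ r hc₁ hA hr2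
    unfold Dat.U
    linarith

end Pool.Agent.LE.QX.H76
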